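import Mathlib

/-!
# The set-splitting game with arbitrary numbers of pieces

The game `G(E; Λ, M)` on a set `E`: player A always splits the current set into pieces labelled by
`Λ`, player B picks one of them and splits it into pieces labelled by `M`, player A picks one of
them and splits it, and so on, `ω` times. A wins if the intersection of the chosen sets is empty.
The set-splitting game of MP_053b7f_lc is the case where `Λ` and `M` have two elements.

Let `λ = max (#Λ, ℵ₀)`. If `M` has at least two and at most `λ⁺` elements, then A has a winning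
strategy if and only if `#E ≤ λ`. In particular A has no winning strategy in the original game on
any uncountable set. More precisely, for every strategy of A all but at most `λ` points of `E`
survive some play in which A follows the strategy, while A can destroy any given `λ` points.
The proof of the first part uses Ulam matrices.
-/

set_option autoImplicit false

open Cardinal Order

universe u v w

namespace Pool.Agent.Results.MP_053b7f_lc.AnyNumberOfPieces

/-! ## The game -/

/-- A strategy of player A in the game `G(E; Λ, M)`. The history of a play is the list of the moves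
of player B, the last move at the end; a move of player B is a pair `(i, d)`: B picks the piece
with label `i : Λ` of the splitting made by A, and splits this piece into the pieces
`{x | d x = j}`, `j : M`. (A splitting of the current set is given by a function on `E`, of which
only the restriction to the current set matters.) -/
structure Strategy (E : Type u) (Λ : Type v) (M : Type w) where
  /-- the splitting made by A after a history: the pieces are `{x | split h x = i}`, `i : Λ` -/
  split : List (Λ × (E → M)) → E → Λ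
  /-- the label of the piece which A picks from the last splitting made by B -/
  pick : List (Λ × (E → M)) → M

/-- the first `n` moves of B -/
def hist {α : Type*} (b : ℕ → α) (n : ℕ) : List α := (List.range n).map b

variable {E : Type u} {Λ : Type v} {M : Type w}

/-- The sets `S 0 = E`, `S 1`, `S 2`, ... of the play in which A follows the strategy `σ` and
`b 0, b 1, ...` are the moves of player B. -/
def S (σ : Strategy E Λ M) (b : ℕ → Λ × (E → M)) : ℕ → Set E
  | 0 => Set.univ
  | n + 1 => if n % 2 = 0 then {x | x ∈ S σ b n ∧ σ.split (hist b (n / 2)) x = (b (n / 2)).1}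
      else {x | x ∈ S σ b n ∧ (b (n / 2)).2 x = σ.pick (hist b (n / 2 + 1))}

/-- Player A has a winning strategy in the game `G(E; Λ, M)`. -/
def AWins (E : Type u) (Λ : Type v) (M : Type w) : Prop :=
  ∃ σ : Strategy E Λ M, ∀ b, ⋂ n, S σ b n = ∅

/-! ## Auxiliary facts -/

lemma hist_succ {α : Type*} (b : ℕ → α) (n : ℕ) : hist b (n + 1) = hist b n ++ [b n] := by
  unfold hist
  rw [List.range_succ, List.map_append, List.map_singleton]

lemma length_hist {α : Type*} (b : ℕ → α) (n : ℕ) : (hist b n).length = n := by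
  simp [hist]

lemma mem_iInter_S (σ : Strategy E Λ M) (b : ℕ → Λ × (E → M)) (x : E) :
    x ∈ ⋂ n, S σ b n ↔
      ∀ n, σ.split (hist b n) x = (b n).1 ∧ (b n).2 x = σ.pick (hist b (n + 1)) := by
  rw [Set.mem_iInter]
  constructor
  · intro h n
    constructor
    · have h1 := h (2 * n + 1)
      rw [S, if_pos (by omega)] at h1
      have h2 : 2 * n / 2 = n := by omega
      rw [h2] at h1
      exact h1.2
    · have h1 := h (2 * n + 1 + 1)
      rw [S, if_neg (by omega)] at h1
      have h2 : (2 * n + 1) / 2 = n := by omega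
      rw [h2] at h1
      exact h1.2
  · intro h n
    induction n with
    | zero => exact Set.mem_univ x
    | succ n ih =>
      rw [S]
      split_ifs
      · exact ⟨ih, (h _).1⟩
      · exact ⟨ih, (h _).2⟩

/-! ## Ulam matrices -/

lemma ulam {K N : Type u} [Infinite N] (hK : #K = succ #N) (J : Set (Set K))
    (hmono : ∀ s t : Set K, s ⊆ t → t ∈ J → s ∈ J) (hsmall : ∀ s : Set K, #s ≤ #N → s ∈ J)
    (hunion : ∀ s : N → Set K, (∀ i, s i ∈ J) → (⋃ i, s i) ∈ J) (huniv : Set.univ ∉ J) :
    ∃ (B : Set K) (P : K → Set K), #B = #K ∧ (∀ β ∈ B, P β ∉ J) ∧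
      ∀ β ∈ B, ∀ β' ∈ B, ∀ k, k ∈ P β → k ∈ P β' → β = β' := by
  have hN : ℵ₀ ≤ #N := infinite_iff.1 inferInstance
  obtain ⟨r, wo, hr⟩ := exists_ord_eq K
  have hseg : ∀ x : K, #{y // r y x} ≤ #N := by
    intro x
    have h1 := Cardinal.card_typein_lt x hr
    rw [← Ordinal.card_typein, hK, lt_succ_iff] at *
    exact h1
  have hf : ∀ x : K, ∃ f : {y // r y x} → N, Function.Injective f := by
    intro x
    obtain ⟨f⟩ := Cardinal.le_def _ _ |>.1 (hseg x)
    exact ⟨f, f.injective⟩
  choose f hf using hf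
  set A : K → N → Set K := fun β ξ => {α | ∃ h : r β α, f α ⟨β, h⟩ = ξ} with hA
  -- union of two members
  have hunion2 : ∀ s t : Set K, s ∈ J → t ∈ J → s ∪ t ∈ J := by
    intro s t hs ht
    classical
    obtain ⟨i0, i1, hne⟩ := exists_pair_ne N
    refine hmono _ _ ?_ (hunion (fun i => if i = i0 then s else t) (fun i => ?_))
    · rintro x (hx | hx)
      · exact Set.mem_iUnion.2 ⟨i0, by rw [if_pos rfl]; exact hx⟩
      · exact Set.mem_iUnion.2 ⟨i1, by rw [if_neg hne.symm]; exact hx⟩
    · split_ifs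
      · exact hs
      · exact ht
  have hξ : ∀ β, ∃ ξ, A β ξ ∉ J := by
    intro β
    by_contra hno
    push Not at hno
    apply huniv
    have h1 : {α : K | ¬ r β α} ∈ J := by
      apply hsmall
      have h2 : {α : K | ¬ r β α} ⊆ {α : K | r α β} ∪ {β} := by
        intro α hα
        rcases trichotomous_of r α β with h | h | h
        · exact Or.inl h
        · exact Or.inr h
        · exact absurd h hα
      calc #{α : K | ¬ r β α} ≤ #(({α : K | r α β} ∪ {β} : Set K)) := mk_le_mk_of_subset h2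
        _ ≤ #{α : K | r α β} + #({β} : Set K) := mk_union_le _ _
        _ ≤ #N + #N := add_le_add (hseg β) (by rw [mk_singleton]; exact one_le_aleph0.trans hN)
        _ = #N := add_eq_self hN
    refine hmono _ _ ?_ (hunion2 _ _ (hunion (A β) hno) h1)
    intro α _
    by_cases h : r β α
    · exact Or.inl (Set.mem_iUnion.2 ⟨f α ⟨β, h⟩, h, rfl⟩)
    · exact Or.inr h
  choose ξ hξ using hξ
  obtain ⟨a, ha⟩ := infinite_pigeonhole ξ (by rw [hK]; exact hN.trans (le_succ _)) (by
    rw [hK, (isRegular_succ hN).cof_ord]; exact lt_succ _)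
  refine ⟨ξ ⁻¹' {a}, fun β => A β (ξ β), ha, fun β _ => hξ β, ?_⟩
  rintro β hβ β' hβ' k ⟨h1, h2⟩ ⟨h3, h4⟩
  have h5 : ξ β = ξ β' := by
    rw [Set.mem_preimage, Set.mem_singleton_iff] at hβ hβ'
    rw [hβ, hβ']
  have h6 := hf k (h2.trans (h5.trans h4.symm))
  exact congrArg Subtype.val h6

/-! ## Strategies of A leave few points without a play -/

/-- few splittings of B suffice to keep most points -/
lemma family {K N : Type u} [Infinite N] (hK : #K = succ #N) (e : K → E)
    (he : Function.Injective e) (s : K → M) (hs : Function.Surjective s) (c : (E → M) → M) :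
    ∃ D : N → E → M, #{k : K | ∀ n, D n (e k) ≠ c (D n)} ≤ #N := by
  classical
  have hN : ℵ₀ ≤ #N := infinite_iff.1 inferInstance
  have hKne : Nonempty K := by
    rw [← mk_ne_zero_iff, hK]
    exact (hN.trans_lt (lt_succ _)).ne_bot
  obtain ⟨k0⟩ := hKne
  set J : Set (Set K) := {X | ∃ D : N → E → M, #{k : K | k ∈ X ∧ ∀ n, D n (e k) ≠ c (D n)} ≤ #N}
    with hJ
  by_contra hno
  have huniv : Set.univ ∉ J := by
    rintro ⟨D, hD⟩
    exact hno ⟨D, by simpa using hD⟩
  have hmono : ∀ s t : Set K, s ⊆ t → t ∈ J → s ∈ J := by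
    rintro X Y hXY ⟨D, hD⟩
    refine ⟨D, le_trans (mk_le_mk_of_subset ?_) hD⟩
    exact fun k hk => ⟨hXY hk.1, hk.2⟩
  have hsmall : ∀ s : Set K, #s ≤ #N → s ∈ J := by
    intro X hX
    exact ⟨fun _ _ => s k0, (mk_le_mk_of_subset (fun k hk => hk.1)).trans hX⟩
  have hunion : ∀ s : N → Set K, (∀ i, s i ∈ J) → (⋃ i, s i) ∈ J := by
    intro X hX
    choose D hD using hX
    have hNN : Nonempty (N ≃ N × N) := by
      rw [← Cardinal.eq, mk_prod, lift_id, mul_eq_self hN]
    obtain ⟨p⟩ := hNN
    refine ⟨fun n => D (p n).1 (p n).2, ?_⟩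
    have h1 : {k : K | k ∈ ⋃ i, X i ∧ ∀ n, D (p n).1 (p n).2 (e k) ≠ c (D (p n).1 (p n).2)} ⊆
        ⋃ i, {k : K | k ∈ X i ∧ ∀ n, D i n (e k) ≠ c (D i n)} := by
      rintro k ⟨hk, hk2⟩
      obtain ⟨i, hi⟩ := Set.mem_iUnion.1 hk
      refine Set.mem_iUnion.2 ⟨i, hi, fun n => ?_⟩
      have h2 := hk2 (p.symm (i, n))
      rw [Equiv.apply_symm_apply] at h2
      exact h2
    refine (mk_le_mk_of_subset h1).trans ((mk_iUnion_le _).trans ?_)
    refine (mul_le_mul' le_rfl (ciSup_le' hD)).trans ?_
    rw [mul_eq_self hN]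
  obtain ⟨B, P, hB, hP, hdis⟩ := ulam hK J hmono hsmall hunion huniv
  obtain ⟨φ⟩ := Cardinal.eq.1 hB
  set d : E → M := fun x => if h : ∃ β : B, ∃ k ∈ P β, e k = x then s (φ h.choose) else s k0 with hd
  have hd1 : ∀ (β : B) (k : K), k ∈ P β → d (e k) = s (φ β) := by
    intro β k hk
    have h : ∃ β' : B, ∃ k' ∈ P β', e k' = e k := ⟨β, k, hk, rfl⟩
    have h1 : d (e k) = s (φ h.choose) := by
      rw [hd]
      exact dif_pos h
    obtain ⟨k', hk', hkk⟩ := h.choose_spec
    have h2 := he hkk
    subst h2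
    have h3 : h.choose = β := Subtype.ext (hdis _ h.choose.2 _ β.2 k' hk' hk)
    rw [h1, h3]
  obtain ⟨k1, hk1⟩ := hs (c d)
  refine hP (φ.symm k1) (φ.symm k1).2 ⟨fun _ => d, ?_⟩
  have h1 : {k : K | k ∈ P (φ.symm k1) ∧ ∀ _ : N, d (e k) ≠ c d} = ∅ := by
    rw [Set.eq_empty_iff_forall_notMem]
    rintro k ⟨hk, hk2⟩
    obtain ⟨n⟩ := (inferInstance : Nonempty N)
    apply hk2 n
    rw [hd1 _ k hk, Equiv.apply_symm_apply, hk1]
  rw [h1, mk_eq_zero]
  exact zero_le

section tree

variable {N : Type u} (inv : N → Λ) (D : List (Λ × (E → M)) → Λ → N → E → M)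

/-- the history of a code -/
def H : List (N × N) → List (Λ × (E → M))
  | [] => []
  | (a, n) :: t => H t ++ [(inv a, D (H t) (inv a) n)]

end tree

/-- A point of every large set survives some play. -/
theorem exists_survivor {K N : Type u} [Infinite N] (hK : #K = succ #N) (e : K → E)
    (he : Function.Injective e) (s : K → M) (hs : Function.Surjective s) (ι : Λ → N)
    (hι : Function.Injective ι) [Nonempty Λ] (σ : Strategy E Λ M) :
    ∃ (k : K) (b : ℕ → Λ × (E → M)), e k ∈ ⋂ n, S σ b n := by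
  have hN : ℵ₀ ≤ #N := infinite_iff.1 inferInstance
  have hfam : ∀ (h : List (Λ × (E → M))) (i : Λ), ∃ D : N → E → M,
      #{k : K | ∀ n, D n (e k) ≠ σ.pick (h ++ [(i, D n)])} ≤ #N := fun h i =>
    family hK e he s hs (fun d => σ.pick (h ++ [(i, d)]))
  choose D hD using hfam
  set inv : N → Λ := Function.invFun ι with hinv
  have hinv1 : ∀ y, inv (ι y) = y := Function.leftInverse_invFun hι
  set L : Set K := ⋃ q : List (N × N) × N, {k : K | ∀ n,
    D (H inv D q.1) (inv q.2) n (e k) ≠
      σ.pick (H inv D q.1 ++ [(inv q.2, D (H inv D q.1) (inv q.2) n)])} with hL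
  have hNN : #(N × N) = #N := by rw [mk_prod, lift_id, mul_eq_self hN]
  have hcodes : #(List (N × N) × N) = #N := by
    rw [mk_prod, lift_id, lift_id, mk_list_eq_mk, hNN, mul_eq_self hN]
  have hLs : #L ≤ #N := by
    refine (mk_iUnion_le _).trans ?_
    rw [hcodes]
    refine (mul_le_mul' le_rfl (ciSup_le' fun q => hD _ _)).trans ?_
    rw [mul_eq_self hN]
  obtain ⟨k, hk⟩ : ∃ k, k ∉ L := by
    by_contra hno
    push Not at hno
    have h1 : L = Set.univ := Set.eq_univ_of_forall hno
    rw [h1, mk_univ, hK] at hLs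
    exact absurd hLs (not_le.2 (lt_succ _))
  have hk' : ∀ (t : List (N × N)) (a : N), ∃ n,
      D (H inv D t) (inv a) n (e k) =
        σ.pick (H inv D t ++ [(inv a, D (H inv D t) (inv a) n)]) := by
    intro t a
    by_contra hno
    push Not at hno
    exact hk (Set.mem_iUnion.2 ⟨(t, a), hno⟩)
  choose g hg using hk'
  -- the codes of the play
  let next : List (N × N) → List (N × N) := fun t =>
    (ι (σ.split (H inv D t) (e k)), g t (ι (σ.split (H inv D t) (e k)))) :: t
  let code : ℕ → List (N × N) := fun m => next^[m] []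
  have hcode : ∀ m, code (m + 1) = next (code m) := fun m => Function.iterate_succ_apply' next m []
  let b : ℕ → Λ × (E → M) := fun m =>
    (σ.split (H inv D (code m)) (e k), D (H inv D (code m)) (σ.split (H inv D (code m)) (e k))
      (g (code m) (ι (σ.split (H inv D (code m)) (e k)))))
  have hnext : ∀ m, H inv D (code (m + 1)) = H inv D (code m) ++ [b m] := by
    intro m
    rw [hcode]
    simp only [next, H, b, hinv1]
  have hb : ∀ m, hist b m = H inv D (code m) := by
    intro m
    induction m with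
    | zero => rfl
    | succ m ih => rw [hist_succ, ih, hnext]
  refine ⟨k, b, ?_⟩
  rw [mem_iInter_S]
  intro m
  constructor
  · rw [hb]
  · rw [hist_succ, hb]
    have h1 := hg (code m) (ι (σ.split (H inv D (code m)) (e k)))
    rw [hinv1] at h1
    exact h1

/-! ## Strategies of A -/

/-- A destroys a countable set. -/
lemma destroy_countable [Nonempty Λ] [Nontrivial M] (Z : Set E) (hZ : Z.Countable) :
    ∃ σ : Strategy E Λ M, ∀ b, Disjoint Z (⋂ n, S σ b n) := by
  classical
  rcases Z.eq_empty_or_nonempty with rfl | hne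
  · exact ⟨⟨fun _ _ => Classical.arbitrary Λ, fun _ => Classical.arbitrary M⟩, fun b => by simp⟩
  obtain ⟨p, hp⟩ := hZ.exists_eq_range hne
  refine ⟨⟨fun _ _ => Classical.arbitrary Λ, fun h => match h.getLast? with
    | none => Classical.arbitrary M
    | some q => (exists_ne (q.2 (p (h.length - 1)))).choose⟩, fun b => ?_⟩
  rw [Set.disjoint_left]
  intro x hx hx2
  rw [hp] at hx
  obtain ⟨n, rfl⟩ := hx
  rw [mem_iInter_S] at hx2
  have h1 := (hx2 n).2
  have h2 : (hist b (n + 1)).getLast? = some (b n) := by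
    rw [hist_succ]
    simp
  simp only [h2, length_hist, Nat.add_sub_cancel] at h1
  exact (exists_ne ((b n).2 (p n))).choose_spec h1.symm

/-- A destroys a set with at most `#Λ` elements. -/
lemma destroy_small [Nontrivial M] [Nonempty Λ] (Z : Set E) (j : Z → Λ)
    (hj : Function.Injective j) : ∃ σ : Strategy E Λ M, ∀ b, Disjoint Z (⋂ n, S σ b n) := by
  classical
  refine ⟨⟨fun _ x => if hx : x ∈ Z then j ⟨x, hx⟩ else Classical.arbitrary Λ,
    fun h => match h.head? with
    | none => Classical.arbitrary M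
    | some q => if hz : ∃ z : Z, j z = q.1 then (exists_ne (q.2 hz.choose)).choose else
        Classical.arbitrary M⟩, fun b => ?_⟩
  rw [Set.disjoint_left]
  intro x hx hx2
  rw [mem_iInter_S] at hx2
  obtain ⟨h1, h2⟩ := hx2 0
  have h3 : (hist b (0 + 1)).head? = some (b 0) := by
    rw [hist_succ]
    simp [hist]
  simp only [h3] at h2
  simp only [dif_pos hx] at h1
  have hz : ∃ z : Z, j z = (b 0).1 := ⟨⟨x, hx⟩, h1⟩
  rw [dif_pos hz] at h2
  have h4 : hz.choose = ⟨x, hx⟩ := hj (hz.choose_spec.trans h1.symm)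
  rw [h4] at h2
  exact (exists_ne ((b 0).2 x)).choose_spec h2.symm

/-- A wins if B cannot use all labels. -/
lemma wins_of_not_surjective [Nonempty Λ] [Nonempty M] (h : ∀ d : E → M, ∃ m, ∀ x, d x ≠ m) :
    AWins E Λ M := by
  classical
  choose c hc using h
  refine ⟨⟨fun _ _ => Classical.arbitrary Λ, fun h => match h.getLast? with
    | none => Classical.arbitrary M
    | some q => c q.2⟩, fun b => ?_⟩
  rw [Set.eq_empty_iff_forall_notMem]
  intro x hx
  rw [mem_iInter_S] at hx
  have h1 := (hx 0).2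
  have h2 : (hist b (0 + 1)).getLast? = some (b 0) := by
    rw [hist_succ]
    simp
  simp only [h2] at h1
  exact hc _ _ h1

/-- A wins if `#E ≤ #M` and the cofinality of `#E` is at most `#Λ`. -/
lemma wins_of_cof {E Λ M : Type u} [Nonempty Λ] [Nonempty M] (hE : ℵ₀ ≤ #E) (hM : #E ≤ #M)
    (hcof : (#E).ord.cof ≤ #Λ) : AWins E Λ M := by
  classical
  obtain ⟨c, hc⟩ : ∃ c : E → Λ, ∀ i, #{x : E | c x = i} < #E := by
    obtain ⟨_, _, hord⟩ := exists_ord_eq_type_lt E
    obtain ⟨s, hs, hs2⟩ := Order.exists_cof_eq (α := E)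
    have h1 : #s ≤ #Λ := by
      rw [hs2, ← Ordinal.cof_type, ← hord]
      exact hcof
    obtain ⟨ι⟩ := (Cardinal.le_def _ _).1 h1
    have h2 : ∀ x : E, ∃ y : s, x ≤ y := fun x => by
      obtain ⟨y, hy, hxy⟩ := hs x
      exact ⟨⟨y, hy⟩, hxy⟩
    choose g hg using h2
    refine ⟨fun x => ι (g x), fun i => ?_⟩
    by_cases hi : ∃ y, ι y = i
    · obtain ⟨y, rfl⟩ := hi
      have h3 : {x : E | ι (g x) = ι y} ⊆ Set.Iio (y : E) ∪ {(y : E)} := by
        intro x hx
        have h4 : g x = y := ι.injective hx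
        have h5 : x ≤ y := h4 ▸ hg x
        rcases h5.lt_or_eq with h | h
        · exact Or.inl h
        · exact Or.inr h
      refine (mk_le_mk_of_subset h3).trans_lt ((mk_union_le _ _).trans_lt ?_)
      refine add_lt_of_lt hE (mk_Iio_lt (y : E) hord) ?_
      rw [mk_singleton]
      exact one_lt_aleph0.trans_le hE
    · have h3 : {x : E | ι (g x) = i} = ∅ := by
        rw [Set.eq_empty_iff_forall_notMem]
        intro x hx
        exact hi ⟨_, hx⟩
      rw [h3, mk_eq_zero]
      exact aleph0_pos.trans_le hE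
  have hp : ∀ q : Λ × (E → M), ∃ m, ∀ x, c x = q.1 → q.2 x ≠ m := by
    intro q
    by_contra hno
    push Not at hno
    have h1 : #M ≤ #{x : E | c x = q.1} := by
      apply mk_le_of_surjective (f := fun x : {x : E | c x = q.1} => q.2 x)
      intro m
      obtain ⟨x, hx, hx2⟩ := hno m
      exact ⟨⟨x, hx⟩, hx2⟩
    exact absurd (hM.trans h1) (not_le.2 (hc _))
  choose p hp using hp
  refine ⟨⟨fun _ => c, fun h => match h.getLast? with
    | none => Classical.arbitrary M
    | some q => p q⟩, fun b => ?_⟩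
  rw [Set.eq_empty_iff_forall_notMem]
  intro x hx
  rw [mem_iInter_S] at hx
  obtain ⟨h0, h1⟩ := hx 0
  have h2 : (hist b (0 + 1)).getLast? = some (b 0) := by
    rw [hist_succ]
    simp
  simp only [h2] at h1
  exact hp _ _ h0 h1

/-- For every strategy of A, few points belong to the intersection of no play. -/
lemma few_destroyed {E Λ M : Type u} [Nonempty Λ] [Nonempty M] (σ : Strategy E Λ M)
    (ν : Cardinal.{u}) (hν : ℵ₀ ≤ ν) (hΛ : #Λ ≤ ν) (hM : #M ≤ succ ν) :
    #{x : E | ∀ b, x ∉ ⋂ n, S σ b n} ≤ ν := by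
  by_contra hno
  rw [not_le, ← succ_le_iff] at hno
  have hN : #ν.out = ν := mk_out ν
  have hinf : Infinite ν.out := by rw [infinite_iff, hN]; exact hν
  have hK : #(succ ν).out = succ #ν.out := by rw [mk_out, hN]
  have h1 : #(succ ν).out ≤ #{x : E | ∀ b, x ∉ ⋂ n, S σ b n} := by rw [mk_out]; exact hno
  obtain ⟨e⟩ := (Cardinal.le_def _ _).1 h1
  have h2 : #M ≤ #(succ ν).out := by rw [mk_out]; exact hM
  obtain ⟨i⟩ := (Cardinal.le_def _ _).1 h2
  have h3 : #Λ ≤ #ν.out := by rw [hN]; exact hΛ
  obtain ⟨ι⟩ := (Cardinal.le_def _ _).1 h3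
  obtain ⟨k, b, hk⟩ := exists_survivor hK (fun k => ((e k : {x : E | ∀ b, x ∉ ⋂ n, S σ b n}) : E))
    (Subtype.val_injective.comp e.injective) (Function.invFun i)
    (Function.invFun_surjective i.injective) ι ι.injective σ
  exact (e k).2 b hk

/-- A point of an uncountable set survives some play with two pieces. -/
lemma not_AWins_bool {E : Type u} [Uncountable E] : ¬ AWins E Bool Bool := by
  rintro ⟨σ, hσ⟩
  have hK : #(succ (ℵ₀ : Cardinal.{u})).out = succ #(ULift.{u} ℕ) := by
    rw [mk_out, mk_uLift, mk_nat, lift_aleph0]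
  have h1 : #(succ (ℵ₀ : Cardinal.{u})).out ≤ #E := by
    rw [mk_out, succ_le_iff]
    exact aleph0_lt_mk_iff.2 inferInstance
  obtain ⟨e⟩ := (Cardinal.le_def _ _).1 h1
  have hnt : Nontrivial (succ (ℵ₀ : Cardinal.{u})).out := by
    rw [← one_lt_iff_nontrivial, mk_out]
    exact one_lt_aleph0.trans (lt_succ _)
  obtain ⟨k0, k1, hne⟩ := exists_pair_ne (succ (ℵ₀ : Cardinal.{u})).out
  classical
  obtain ⟨k, b, hk⟩ := exists_survivor hK e e.injective (fun k => decide (k = k0))
    (fun m => by
      cases m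
      · exact ⟨k1, by simp [hne.symm]⟩
      · exact ⟨k0, by simp⟩)
    (fun m : Bool => ULift.up (if m then 1 else 0))
    (fun a b h => by
      cases a <;> cases b <;> simp at h ⊢) σ
  rw [hσ b] at hk
  exact hk

/-- **Main theorem.**
(1) The set-splitting game of the problem (all splittings into two pieces): A has a winning
strategy if and only if `E` is countable.
(2) A splits into pieces labelled by `Λ`, B into pieces labelled by `M`; let `λ = max (#Λ, ℵ₀)` and
`2 ≤ #M ≤ λ⁺`. Then A has a winning strategy if and only if `#E ≤ λ`.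
(3) If `#M ≤ ν⁺` for some cardinal `ν ≥ λ`, then for every strategy of A all but at most `ν` points
of `E` belong to the intersection of some play in which A follows the strategy.
(4) If `#M ≥ 2`, then A can destroy any given `λ` points.
(5) If `#M ≥ 2` and `#E > λ`: A has a winning strategy if `#E < #M`, and also if `#E ≤ #M` and the
cofinality of `#E` is at most `#Λ`; A has none if `#M < #E` or if `#M ≤ #E` and `#E` is a successor
cardinal. (The only case left open: `#E = #M` is a limit cardinal of cofinality above `#Λ`.) -/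
theorem result :
    (∀ E : Type u, AWins E Bool Bool ↔ Countable E) ∧
    (∀ (E Λ M : Type u) [Nonempty Λ] [Nontrivial M], #M ≤ succ (max #Λ ℵ₀) →
      (AWins E Λ M ↔ #E ≤ max #Λ ℵ₀)) ∧
    (∀ (E Λ M : Type u) [Nonempty Λ] [Nonempty M] (σ : Strategy E Λ M) (ν : Cardinal.{u}),
      max #Λ ℵ₀ ≤ ν → #M ≤ succ ν → #{x : E | ∀ b, x ∉ ⋂ n, S σ b n} ≤ ν) ∧
    (∀ (E Λ M : Type u) [Nonempty Λ] [Nontrivial M] (Z : Set E), #Z ≤ max #Λ ℵ₀ →
      ∃ σ : Strategy E Λ M, ∀ b, Disjoint Z (⋂ n, S σ b n)) ∧
    (∀ (E Λ M : Type u) [Nonempty Λ] [Nontrivial M], max #Λ ℵ₀ < #E →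
      (#E < #M → AWins E Λ M) ∧ (#E ≤ #M → (#E).ord.cof ≤ #Λ → AWins E Λ M) ∧
      (#M < #E → ¬ AWins E Λ M) ∧
      (∀ ρ : Cardinal.{u}, #E = succ ρ → #M ≤ #E → ¬ AWins E Λ M)) := by
  have h4 : ∀ (E Λ M : Type u) [Nonempty Λ] [Nontrivial M] (Z : Set E), #Z ≤ max #Λ ℵ₀ →
      ∃ σ : Strategy E Λ M, ∀ b, Disjoint Z (⋂ n, S σ b n) := by
    intro E Λ M _ _ Z hZ
    rcases le_max_iff.1 hZ with h | h
    · obtain ⟨j⟩ := (Cardinal.le_def _ _).1 h
      exact destroy_small Z j j.injective
    · exact destroy_countable Z (le_aleph0_iff_set_countable.1 h)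
  have hwin : ∀ (E Λ M : Type u) [Nonempty Λ] [Nontrivial M], #E ≤ max #Λ ℵ₀ → AWins E Λ M := by
    intro E Λ M _ _ hE
    obtain ⟨σ, hσ⟩ := h4 E Λ M Set.univ (by rw [mk_univ]; exact hE)
    exact ⟨σ, fun b => by simpa using hσ b⟩
  have hlose : ∀ (E Λ M : Type u) [Nonempty Λ] [Nonempty M] (ν : Cardinal.{u}),
      max #Λ ℵ₀ ≤ ν → #M ≤ succ ν → ν < #E → ¬ AWins E Λ M := by
    rintro E Λ M _ _ ν hν hM hE ⟨σ, hσ⟩
    have h1 := few_destroyed σ ν ((le_max_right _ _).trans hν) ((le_max_left _ _).trans hν) hM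
    have h2 : {x : E | ∀ b, x ∉ ⋂ n, S σ b n} = Set.univ := by
      apply Set.eq_univ_of_forall
      intro x b
      rw [hσ b]
      exact Set.notMem_empty x
    rw [h2, mk_univ] at h1
    exact absurd h1 (not_le.2 hE)
  refine ⟨fun E => ⟨fun h => ?_, fun h => ?_⟩, fun E Λ M _ _ hM => ⟨fun h => ?_, hwin E Λ M⟩,
    fun E Λ M _ _ σ ν hν hM => few_destroyed σ ν ((le_max_right _ _).trans hν)
      ((le_max_left _ _).trans hν) hM, h4, fun E Λ M _ _ hE => ⟨fun hM => ?_,
      wins_of_cof ((le_max_right _ _).trans hE.le), fun hM => ?_, fun ρ hρ hM => ?_⟩⟩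
  · by_contra hc
    rw [not_countable_iff] at hc
    exact not_AWins_bool h
  · obtain ⟨σ, hσ⟩ := destroy_countable (Λ := Bool) (M := Bool) (Set.univ : Set E)
      Set.countable_univ
    exact ⟨σ, fun b => by simpa using hσ b⟩
  · by_contra hE
    exact hlose E Λ M _ le_rfl hM (not_le.1 hE) h
  · apply wins_of_not_surjective
    intro d
    by_contra hno
    push Not at hno
    exact absurd (mk_le_of_surjective (f := d) hno) (not_le.2 hM)
  · refine hlose E Λ M (max (max #Λ ℵ₀) #M) (le_max_left _ _) ?_ (max_lt hE hM)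
    exact (le_max_right _ _).trans (le_succ _)
  · refine hlose E Λ M ρ ?_ (hρ ▸ hM) (hρ ▸ lt_succ ρ)
    rw [hρ, lt_succ_iff] at hE
    exact hE

end Pool.Agent.Results.MP_053b7f_lc.AnyNumberOfPieces
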